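import Pool.Agent.H18.TE.Targets
import Pool.Agent.H8.ZA.Basic
import Pool.Agent.H2.TD.WBX

/-!
# HLC: the height of the value of a linear form
-/

set_option autoImplicit false

open MvPolynomial
open Pool.Agent.H12.ZD (pmap v O Res DenseOrbit NoInv)
open Pool.Agent.H18.HIT
open Pool.Agent.H8.ZA (HFam Const NA sz)
open Pool.Agent.H8.TD
open Pool.Agent.H18.TE

namespace Pool.Agent.H94.BKH

/-- a linear form in the coordinates is in the space of degree one -/
theorem lc_mem (s : Fin 3 → Qb) :
    lc s (fun i => (X i : MvPolynomial (Fin 3) Qb)) ∈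
      Wsp Qb (fun i : Fin 3 => (X i : MvPolynomial (Fin 3) Qb)) (0 : Fin 3 → MvPolynomial (Fin 3) Qb) 1 0 := by
  classical
  unfold lc Wsp
  refine Submodule.sum_mem _ fun i _ => Submodule.smul_mem _ _ (Submodule.subset_span ?_)
  refine ⟨Pi.single i 1, 0, ?_, ?_, ?_⟩
  · rw [Finset.sum_pi_single']
    simp
  · simp
  · simp only [Pi.zero_apply, pow_zero, Finset.prod_const_one, mul_one]
    rw [Finset.prod_eq_single i]
    · rw [Pi.single_eq_same, pow_one]
    · intro j _ hj
      rw [Pi.single_eq_of_ne hj, pow_zero]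
    · intro h
      exact absurd (Finset.mem_univ i) h

theorem pf_HLC : T_HLC := by
  intro s K F
  obtain ⟨c, hc, h⟩ := Pool.Agent.H2.TD.pf_WBX (MvPolynomial (Fin 3) Qb)
    (fun i : Fin 3 => (X i : MvPolynomial (Fin 3) Qb)) 0 1 0 _ (lc_mem s) K F
  refine ⟨∑ᶠ i, Real.log (c i), fun w => ?_⟩
  have h1 := Pool.Agent.H8.ZA.ht_compare F (x := ![lc s w, 0, 0]) (y := w) (z := w) (n := 1)
    (a := 1) (b := 0) 1 K.one_mem one_ne_zero c hc ?_
  · linarith
  · intro i
    have h2 := h i (aeval w)
    have e1 : (aeval w) (lc s fun i => (X i : MvPolynomial (Fin 3) Qb)) = lc s w := by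
      unfold lc
      rw [map_sum]
      refine Finset.sum_congr rfl fun j _ => ?_
      rw [map_smul, aeval_X]
    have e2 : (fun j => (aeval w) (X j : MvPolynomial (Fin 3) Qb)) = w := by
      funext j
      rw [aeval_X]
    rw [e1, e2, pow_one, pow_zero, mul_one] at h2
    have hs : 0 < sz (F.abv i) w := Pool.Agent.H8.ZA.sz_pos _ _
    have h3 : 1 ≤ c i * sz (F.abv i) w :=
      one_le_mul_of_one_le_of_one_le (hc.one_le i) (Pool.Agent.H8.ZA.one_le_sz _ _)
    have h4 : sz (F.abv i) ![lc s w, 0, 0] ≤ c i * sz (F.abv i) w := by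
      refine Pool.Agent.H8.ZA.sz_le h3 fun j => ?_
      fin_cases j
      · exact h2
      · show F.abv i 0 ≤ _
        rw [map_zero]
        linarith
      · show F.abv i 0 ≤ _
        rw [map_zero]
        linarith
    have h5 := Real.log_le_log (Pool.Agent.H8.ZA.sz_pos _ _) h4
    rw [Real.log_mul (ne_of_gt (hc.pos i)) (ne_of_gt hs)] at h5
    rw [map_one, Real.log_one]
    linarith

end Pool.Agent.H94.BKH
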